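import Mathlib

/-!
# Rotors in a regular triangular prism are balls

Let `h` be the support function of a rotor `K` and `r` the inradius of the triangle. Then
`h u + h v + h w = 3 r` for all unit vectors `u`, `v`, `w` with `u + v + w = 0`.

* `Hyp.width`: applied to the twelve roots of a root system of type `A₃` this shows that
  `h u + h (-u) = 2 r` for all unit vectors `u`.
* `Hyp.circle`: let `x` be a point of `K` with `⟪x, u⟫ = h u`. Then `h w = ⟪x, w⟫ + 3 r / 2` for all
  unit vectors `w` with `⟪u, w⟫ = -1/2`.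
* `cen_eq`: hence `h - r` agrees with the linear functional given by `a(u) = x - r u` at `u` and at
  all unit vectors `w` with `⟪u, w⟫ = 1/2`, and this implies that `a(u)` does not depend on `u`.
-/

set_option autoImplicit false

open Set Metric

namespace Pool.Agent.Results.MP_c2e62a_gt.RotorsAreBalls

/-- Euclidean 3-space. -/
abbrev E := EuclideanSpace ℝ (Fin 3)

/-- a function with quadratic modulus of continuity is constant -/
lemma const_of_sq {f : ℝ → ℝ} {C : ℝ} (h : ∀ x y, f y ≤ f x + C * (y - x) ^ 2) (x y : ℝ) :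
    f x = f y := by
  have hd : ∀ x, HasDerivAt f 0 x := by
    intro x
    rw [hasDerivAt_iff_isLittleO]
    have h1 : (fun y => f y - f x - (y - x) • (0 : ℝ)) =O[nhds x] fun y => (y - x) ^ 2 := by
      refine Asymptotics.IsBigO.of_bound |C| (Filter.Eventually.of_forall fun y => ?_)
      simp only [smul_eq_mul, mul_zero, sub_zero, Real.norm_eq_abs, abs_pow, sq_abs]
      have h1 := h x y
      have h2 := h y x
      have h3 : C * (y - x) ^ 2 ≤ |C| * (y - x) ^ 2 :=
        mul_le_mul_of_nonneg_right (le_abs_self C) (sq_nonneg _)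
      rw [abs_le]
      constructor <;> nlinarith
    refine h1.trans_isLittleO ?_
    have h2 : (fun y : ℝ => (y - x) ^ 2) =o[nhds x] fun y => (y - x) ^ 1 := by
      have := (Asymptotics.isLittleO_pow_pow (𝕜 := ℝ) (m := 1) (n := 2) (by norm_num))
      have h4 : Filter.Tendsto (fun y : ℝ => y - x) (nhds x) (nhds 0) := by
        have : Filter.Tendsto (fun y : ℝ => y - x) (nhds x) (nhds (x - x)) :=
          (continuous_id.sub continuous_const).tendsto x
        simpa using this
      exact this.comp_tendsto h4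
    simpa using h2
  exact is_const_of_deriv_eq_zero (fun x => (hd x).differentiableAt) (fun x => (hd x).deriv) x y

/-- The inner product of two combinations of three orthonormal vectors. -/
lemma inner_comb {p q k : E} (hp : inner ℝ p p = 1) (hq : inner ℝ q q = 1) (hk : inner ℝ k k = 1)
    (hpq : inner ℝ p q = 0) (hpk : inner ℝ p k = 0) (hqk : inner ℝ q k = 0) (a b c a' b' c' : ℝ) :
    inner ℝ (a • p + b • q + c • k) (a' • p + b' • q + c' • k) = a * a' + b * b' + c * c' := by
  have hqp : inner ℝ q p = 0 := by rw [real_inner_comm]; exact hpq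
  have hkp : inner ℝ k p = 0 := by rw [real_inner_comm]; exact hpk
  have hkq : inner ℝ k q = 0 := by rw [real_inner_comm]; exact hqk
  simp only [inner_add_left, inner_add_right, inner_smul_left, inner_smul_right, hp, hq, hk, hpq,
    hpk, hqk, hqp, hkp, hkq, RCLike.conj_to_real]
  ring

lemma norm_one_iff {x : E} : ‖x‖ = 1 ↔ inner ℝ x x = 1 := by
  rw [real_inner_self_eq_norm_sq]
  constructor
  · intro h; rw [h]; norm_num
  · intro h
    have := norm_nonneg x
    nlinarith

/-- In three dimensions there is a unit vector orthogonal to two given vectors. -/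
lemma exists_orth (p q : E) : ∃ n : E, inner ℝ n n = 1 ∧ inner ℝ p n = 0 ∧ inner ℝ q n = 0 := by
  set S : Submodule ℝ E := Submodule.span ℝ {p, q} with hS
  have h1 : Module.finrank ℝ S ≤ 2 := by
    rw [hS]
    have := finrank_span_le_card (R := ℝ) ({p, q} : Set E)
    refine this.trans ?_
    rw [Set.toFinset_card]
    have : Fintype.card ({p, q} : Set E) = ({p, q} : Finset E).card := by
      rw [← Fintype.card_coe]
      exact Fintype.card_congr (Equiv.setCongr (by simp))
    rw [this]
    exact Finset.card_le_two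
  have h2 := S.finrank_add_finrank_orthogonal
  have h3 : Module.finrank ℝ E = 3 := by simp
  have h4 : Sᗮ ≠ ⊥ := by
    intro h
    rw [h, finrank_bot] at h2
    omega
  obtain ⟨m, hm, hm0⟩ := Submodule.exists_mem_ne_zero_of_ne_bot h4
  have hm1 : ‖m‖ ≠ 0 := norm_ne_zero_iff.2 hm0
  rw [Submodule.mem_orthogonal] at hm
  refine ⟨‖m‖⁻¹ • m, ?_, ?_, ?_⟩
  · rw [inner_smul_left, inner_smul_right, real_inner_self_eq_norm_sq, RCLike.conj_to_real]
    field_simp
  · rw [inner_smul_right, hm p (Submodule.subset_span (by simp)), mul_zero]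
  · rw [inner_smul_right, hm q (Submodule.subset_span (by simp)), mul_zero]

/-- The properties of the support function of a rotor. -/
structure Hyp (h : E → ℝ) (r R : ℝ) : Prop where
  supp : ∀ u : E, ∃ x : E, h u = inner ℝ x u ∧ ∀ w, inner ℝ x w ≤ h w
  bound : ∀ x : E, (∀ w, inner ℝ x w ≤ h w) → ‖x‖ ≤ R
  triple : ∀ u v w : E, inner ℝ u u = 1 → inner ℝ v v = 1 → inner ℝ w w = 1 → u + v + w = 0 →
    h u + h v + h w = 3 * r

variable {h : E → ℝ} {r R : ℝ}

lemma Hyp.etriple (H : Hyp h r R) {u v w : E} (hu : inner ℝ u u = 1) (hv : inner ℝ v v = 1)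
    (hw : inner ℝ w w = 1) (h0 : u + v + w = 0) :
    (h u + h (-u)) + (h v + h (-v)) + (h w + h (-w)) = 6 * r := by
  have h1 := H.triple u v w hu hv hw h0
  have h2 := H.triple (-u) (-v) (-w) (by simpa using hu) (by simpa using hv) (by simpa using hw)
    (by rw [← neg_add, ← neg_add, h0, neg_zero])
  linarith

lemma Hyp.orth (H : Hyp h r R) {p q : E} (hp : inner ℝ p p = 1) (hq : inner ℝ q q = 1)
    (hpq : inner ℝ p q = 0) : h p + h (-p) = h q + h (-q) := by
  obtain ⟨k, hk, hpk, hqk⟩ := exists_orth p q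
  set c : ℝ := √2 / 2 with hc
  have hc2 : c * c = 1 / 2 := by
    rw [hc]
    have : √2 * √2 = 2 := Real.mul_self_sqrt (by norm_num)
    linarith
  have key := fun a b d => inner_comb hp hq hk hpq hpk hqk a b d a b d
  -- `a1 = (p + q) / 2 + c k`, `a2 = (p + q) / 2 - c k`, `b1 = (p - q) / 2 + c k`, `b2 = (p - q) / 2 - c k`
  have t1 := H.etriple (u := -p) (v := (1 / 2 : ℝ) • p + (1 / 2 : ℝ) • q + c • k)
    (w := (1 / 2 : ℝ) • p + (-1 / 2 : ℝ) • q + (-c) • k) (by simpa using hp)
    (by rw [key]; linarith) (by rw [key]; linarith) (by module)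
  have t2 := H.etriple (u := -p) (v := (1 / 2 : ℝ) • p + (1 / 2 : ℝ) • q + (-c) • k)
    (w := (1 / 2 : ℝ) • p + (-1 / 2 : ℝ) • q + c • k) (by simpa using hp)
    (by rw [key]; linarith) (by rw [key]; linarith) (by module)
  have t3 := H.etriple (u := -q) (v := (1 / 2 : ℝ) • p + (1 / 2 : ℝ) • q + c • k)
    (w := -((1 / 2 : ℝ) • p + (-1 / 2 : ℝ) • q + c • k)) (by simpa using hq)
    (by rw [key]; linarith) (by rw [inner_neg_neg, key]; linarith) (by module)
  have t4 := H.etriple (u := -q) (v := (1 / 2 : ℝ) • p + (1 / 2 : ℝ) • q + (-c) • k)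
    (w := -((1 / 2 : ℝ) • p + (-1 / 2 : ℝ) • q + (-c) • k)) (by simpa using hq)
    (by rw [key]; linarith) (by rw [inner_neg_neg, key]; linarith) (by module)
  simp only [neg_neg] at t1 t2 t3 t4
  linarith

lemma Hyp.width (H : Hyp h r R) {p : E} (hp : inner ℝ p p = 1) : h p + h (-p) = 2 * r := by
  -- all unit vectors have the same width
  have hall : ∀ q : E, inner ℝ q q = 1 → h q + h (-q) = h p + h (-p) := by
    intro q hq
    obtain ⟨n, hn, hpn, hqn⟩ := exists_orth p q
    rw [H.orth hp hn hpn, H.orth hq hn hqn]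
  obtain ⟨n, hn, hpn, _⟩ := exists_orth p p
  obtain ⟨k, hk, hpk, hnk⟩ := exists_orth p n
  have key := fun a b d => inner_comb hp hn hk hpn hpk hnk a b d a b d
  have hs : √3 * √3 = 3 := Real.mul_self_sqrt (by norm_num)
  have k1 : inner ℝ ((-1 / 2 : ℝ) • p + (√3 / 2) • n + (0 : ℝ) • k)
      ((-1 / 2 : ℝ) • p + (√3 / 2) • n + (0 : ℝ) • k) = 1 := by rw [key]; linarith
  have k2 : inner ℝ ((-1 / 2 : ℝ) • p + (-(√3 / 2)) • n + (0 : ℝ) • k)
      ((-1 / 2 : ℝ) • p + (-(√3 / 2)) • n + (0 : ℝ) • k) = 1 := by rw [key]; linarith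
  have t := H.etriple hp k1 k2 (by module)
  rw [hall _ k1, hall _ k2] at t
  linarith


lemma Hyp.lip (H : Hyp h r R) (u v : E) : h u ≤ h v + R * ‖u - v‖ := by
  obtain ⟨x, hx, hx'⟩ := H.supp u
  have h1 : inner ℝ x u = inner ℝ x v + inner ℝ x (u - v) := by rw [← inner_add_right]; simp
  have h2 := real_inner_le_norm x (u - v)
  have h3 : ‖x‖ * ‖u - v‖ ≤ R * ‖u - v‖ :=
    mul_le_mul_of_nonneg_right (H.bound x hx') (norm_nonneg _)
  have h4 := hx' v
  linarith

/-- A support functional at `u` describes `h` on the circle of all unit vectors at angle `2π/3`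
from `u`. -/
lemma Hyp.circle (H : Hyp h r R) {u w x : E} (hu : inner ℝ u u = 1) (hw : inner ℝ w w = 1)
    (huw : inner ℝ u w = -1 / 2) (hx : h u = inner ℝ x u) (hx' : ∀ w, inner ℝ x w ≤ h w) :
    h w = inner ℝ x w + 3 * r / 2 := by
  have hR := H.bound x hx'
  have hs : √3 * √3 = 3 := Real.mul_self_sqrt (by norm_num)
  have hs0 : √3 ≠ 0 := by positivity
  have hwu : inner ℝ w u = -1 / 2 := by rw [real_inner_comm]; exact huw
  -- orthonormal basis `u, p, q`
  set p : E := (2 / √3) • w + (1 / √3) • u with hp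
  have hpp : inner ℝ p p = 1 := by
    simp only [hp, inner_add_left, inner_add_right, inner_smul_left, inner_smul_right,
      RCLike.conj_to_real, hu, hw, huw, hwu]
    field_simp
    nlinarith
  have hup : inner ℝ u p = 0 := by
    simp only [hp, inner_add_right, inner_smul_right, hu, huw]
    ring
  obtain ⟨q, hq, huq, hpq⟩ := exists_orth u p
  have hwp : w = (-1 / 2 : ℝ) • u + (√3 / 2) • p := by
    rw [hp, smul_add, smul_smul, smul_smul]
    have e1 : √3 / 2 * (2 / √3) = 1 := by field_simp
    have e2 : √3 / 2 * (1 / √3) = 1 / 2 := by field_simp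
    rw [e1, e2]
    module
  have key := fun a b d => inner_comb hu hpp hq hup huq hpq a b d a b d
  set W : ℝ → E := fun ψ => (-1 / 2 : ℝ) • u + (√3 / 2 * Real.cos ψ) • p +
    (√3 / 2 * Real.sin ψ) • q with hW
  set f : ℝ → ℝ := fun ψ => h (W ψ) - inner ℝ x (W ψ) with hf
  have hW1 : ∀ ψ, inner ℝ (W ψ) (W ψ) = 1 := by
    intro ψ
    simp only [hW]
    rw [key]
    linear_combination (1 / 4) * (Real.sin ψ ^ 2 + Real.cos ψ ^ 2) * hs +
      (3 / 4) * Real.sin_sq_add_cos_sq ψ
  have main : ∀ ψ ψ', f ψ' ≤ f ψ + R * (ψ' - ψ) ^ 2 := by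
    intro ψ ψ'
    set ε := ψ' - ψ with hε
    have hψ' : ψ' = ψ + ε := by rw [hε]; ring
    -- `v = -u - w`
    set s := Real.sin ψ
    set c := Real.cos ψ
    have hsc : s ^ 2 + c ^ 2 = 1 := Real.sin_sq_add_cos_sq ψ
    set S := Real.sin ε
    set D := Real.cos ε
    have hSD : S ^ 2 + D ^ 2 = 1 := Real.sin_sq_add_cos_sq ε
    -- the triple `u' + v + w' = 0`
    set v : E := (-1 / 2 : ℝ) • u + (-(√3 / 2) * c) • p + (-(√3 / 2) * s) • q with hv
    set u' : E := (1 / 4 + 3 / 4 * D) • u + (√3 / 4 * c - √3 / 4 * D * c + √3 / 2 * S * s) • p +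
      (√3 / 4 * s - √3 / 4 * D * s - √3 / 2 * S * c) • q with hu'
    set w' : E := (1 / 4 - 3 / 4 * D) • u + (√3 / 4 * c + √3 / 4 * D * c - √3 / 2 * S * s) • p +
      (√3 / 4 * s + √3 / 4 * D * s + √3 / 2 * S * c) • q with hw'
    have hv1 : inner ℝ v v = 1 := by
      rw [hv, key]
      linear_combination (1 / 4) * (s ^ 2 + c ^ 2) * hs + (3 / 4) * hsc
    have hu1 : inner ℝ u' u' = 1 := by
      rw [hu', key]
      have : (1 / 4 + 3 / 4 * D) * (1 / 4 + 3 / 4 * D) +
        (√3 / 4 * c - √3 / 4 * D * c + √3 / 2 * S * s) * (√3 / 4 * c - √3 / 4 * D * c + √3 / 2 * S * s) +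
        (√3 / 4 * s - √3 / 4 * D * s - √3 / 2 * S * c) * (√3 / 4 * s - √3 / 4 * D * s - √3 / 2 * S * c)
        = (1 / 4 + 3 / 4 * D) ^ 2 + (√3 * √3) * (s ^ 2 + c ^ 2) * ((1 - D) ^ 2 / 16 + S ^ 2 / 4) := by
        ring
      rw [this, hs, hsc]
      linear_combination (3 / 4) * hSD
    have hw1 : inner ℝ w' w' = 1 := by
      rw [hw', key]
      have : (1 / 4 - 3 / 4 * D) * (1 / 4 - 3 / 4 * D) +
        (√3 / 4 * c + √3 / 4 * D * c - √3 / 2 * S * s) * (√3 / 4 * c + √3 / 4 * D * c - √3 / 2 * S * s) +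
        (√3 / 4 * s + √3 / 4 * D * s + √3 / 2 * S * c) * (√3 / 4 * s + √3 / 4 * D * s + √3 / 2 * S * c)
        = (1 / 4 - 3 / 4 * D) ^ 2 + (√3 * √3) * (s ^ 2 + c ^ 2) * ((1 + D) ^ 2 / 16 + S ^ 2 / 4) := by
        ring
      rw [this, hs, hsc]
      linear_combination (3 / 4) * hSD
    have hWψ : W ψ = (-1 / 2 : ℝ) • u + (√3 / 2 * c) • p + (√3 / 2 * s) • q := rfl
    have T1 := H.triple u' v w' hu1 hv1 hw1 (by rw [hu', hv, hw']; module)
    have T2 := H.triple u v (W ψ) hu hv1 (hW1 ψ) (by rw [hv, hWψ]; module)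
    have hsum1 : inner ℝ x u' + inner ℝ x v + inner ℝ x w' = 0 := by
      rw [← inner_add_right, ← inner_add_right]
      have : u' + v + w' = 0 := by rw [hu', hv, hw']; module
      rw [this, inner_zero_right]
    have hsum2 : inner ℝ x u + inner ℝ x v + inner ℝ x (W ψ) = 0 := by
      rw [← inner_add_right, ← inner_add_right]
      have : u + v + W ψ = 0 := by rw [hv, hWψ]; module
      rw [this, inner_zero_right]
    have h1 : h w' - inner ℝ x w' ≤ f ψ := by
      simp only [hf]
      have := hx' u'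
      linarith
    -- compare `w'` with `W ψ'`
    have hdiff : W ψ' - w' = (-(1 - D)) • ((3 / 4 : ℝ) • u + (√3 / 4 * c) • p + (√3 / 4 * s) • q) := by
      simp only [hW]
      rw [hw', hψ', Real.cos_add, Real.sin_add]
      module
    have hnorm : ‖W ψ' - w'‖ ≤ ε ^ 2 / 2 := by
      have h2 : ‖(3 / 4 : ℝ) • u + (√3 / 4 * c) • p + (√3 / 4 * s) • q‖ ≤ 1 := by
        have h3 := key (3 / 4) (√3 / 4 * c) (√3 / 4 * s)
        rw [real_inner_self_eq_norm_sq] at h3
        have h4 : ‖(3 / 4 : ℝ) • u + (√3 / 4 * c) • p + (√3 / 4 * s) • q‖ ^ 2 ≤ 1 ^ 2 := by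
          rw [h3]
          have : (3 / 4 : ℝ) * (3 / 4) + √3 / 4 * c * (√3 / 4 * c) + √3 / 4 * s * (√3 / 4 * s) =
            9 / 16 + (√3 * √3) * (s ^ 2 + c ^ 2) / 16 := by ring
          rw [this, hs, hsc]
          norm_num
        exact (pow_le_pow_iff_left₀ (norm_nonneg _) zero_le_one two_ne_zero).1 h4
      rw [hdiff, norm_smul, norm_neg, Real.norm_eq_abs]
      have h5 : |1 - D| = 1 - D := abs_of_nonneg (by linarith [Real.cos_le_one ε])
      have h6 : 1 - D ≤ ε ^ 2 / 2 := by
        have := Real.one_sub_sq_div_two_le_cos (x := ε)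
        linarith
      rw [h5]
      have h7 : (0 : ℝ) ≤ 1 - D := by linarith [Real.cos_le_one ε]
      nlinarith [norm_nonneg ((3 / 4 : ℝ) • u + (√3 / 4 * c) • p + (√3 / 4 * s) • q)]
    have hR0 : 0 ≤ R := (norm_nonneg x).trans hR
    have h2 := H.lip (W ψ') w'
    have h3 : inner ℝ x w' - inner ℝ x (W ψ') ≤ R * ‖W ψ' - w'‖ := by
      rw [← inner_sub_right]
      refine (real_inner_le_norm _ _).trans ?_
      rw [norm_sub_rev]
      exact mul_le_mul_of_nonneg_right hR (norm_nonneg _)
    have h4 : R * ‖W ψ' - w'‖ ≤ R * (ε ^ 2 / 2) := mul_le_mul_of_nonneg_left hnorm hR0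
    have h5 : f ψ' = h (W ψ') - inner ℝ x (W ψ') := rfl
    linarith
  have hconst := const_of_sq main 0 Real.pi
  have hW0 : W 0 = w := by simp only [hW]; rw [hwp]; simp
  have hWpi : W Real.pi = -u - w := by
    simp only [hW, Real.cos_pi, Real.sin_pi]
    rw [hwp]
    module
  have hww : inner ℝ (-u - w) (-u - w) = 1 := by rw [← hWpi]; exact hW1 _
  have T := H.triple u w (-u - w) hu hw hww (by abel)
  simp only [hf, hW0, hWpi] at hconst
  have h8 : inner ℝ x u + inner ℝ x w + inner ℝ x (-u - w) = 0 := by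
    rw [← inner_add_right, ← inner_add_right]
    have : u + w + (-u - w) = 0 := by abel
    rw [this, inner_zero_right]
  linarith

lemma Hyp.circle' (H : Hyp h r R) {u w x : E} (hu : inner ℝ u u = 1) (hw : inner ℝ w w = 1)
    (huw : inner ℝ u w = 1 / 2) (hx : h u = inner ℝ x u) (hx' : ∀ w, inner ℝ x w ≤ h w) :
    h w = inner ℝ (x - r • u) w + r := by
  have h1 := H.circle (w := -w) hu (by simpa using hw) (by rw [inner_neg_right, huw]; norm_num) hx hx'
  have h2 := H.width hw
  rw [inner_neg_right] at h1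
  rw [inner_sub_left, inner_smul_left, huw, RCLike.conj_to_real]
  linarith

/-- `a` is a centre at `u`. -/
def Cen (h : E → ℝ) (r : ℝ) (u a : E) : Prop :=
  h u = inner ℝ a u + r ∧ ∀ w, inner ℝ w w = 1 → inner ℝ u w = 1 / 2 → h w = inner ℝ a w + r

lemma Hyp.exists_cen (H : Hyp h r R) {u : E} (hu : inner ℝ u u = 1) : ∃ a, Cen h r u a := by
  obtain ⟨x, hx, hx'⟩ := H.supp u
  refine ⟨x - r • u, ?_, fun w hw huw => H.circle' hu hw huw hx hx'⟩
  rw [inner_sub_left, inner_smul_left, hu, hx, RCLike.conj_to_real]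
  ring

lemma cen_eq {u w a b : E} (hu : inner ℝ u u = 1) (hw : inner ℝ w w = 1)
    (huw : inner ℝ u w = 1 / 2) (ha : Cen h r u a) (hb : Cen h r w b) : a = b := by
  have hwu : inner ℝ w u = 1 / 2 := by rw [real_inner_comm]; exact huw
  by_contra hne
  have hd0 : a - b ≠ 0 := sub_ne_zero.2 hne
  have e1 : inner ℝ (a - b) u = 0 := by
    rw [inner_sub_left]
    linarith [ha.1, hb.2 u hu hwu]
  have e2 : inner ℝ (a - b) w = 0 := by
    rw [inner_sub_left]
    linarith [hb.1, ha.2 w hw huw]
  set d := a - b with hd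
  have hdn : ‖d‖ ≠ 0 := norm_ne_zero_iff.2 hd0
  set n : E := ‖d‖⁻¹ • d with hn
  have hnn : inner ℝ n n = 1 := by
    rw [hn, inner_smul_left, inner_smul_right, real_inner_self_eq_norm_sq, RCLike.conj_to_real]
    field_simp
  have hnu : inner ℝ n u = 0 := by rw [hn, inner_smul_left, e1, mul_zero]
  have hnw : inner ℝ n w = 0 := by rw [hn, inner_smul_left, e2, mul_zero]
  have hun : inner ℝ u n = 0 := by rw [real_inner_comm]; exact hnu
  have hwn : inner ℝ w n = 0 := by rw [real_inner_comm]; exact hnw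
  have hdn' : inner ℝ d n = ‖d‖ := by
    rw [hn, inner_smul_right, real_inner_self_eq_norm_sq]
    field_simp
  have h6 : √6 * √6 = 6 := Real.mul_self_sqrt (by norm_num)
  set v : E := (1 / 3 : ℝ) • u + (1 / 3 : ℝ) • w + (√6 / 3) • n with hv
  have hvv : inner ℝ v v = 1 := by
    simp only [hv, inner_add_left, inner_add_right, inner_smul_left, inner_smul_right,
      RCLike.conj_to_real, hu, hw, huw, hwu, hnn, hnu, hnw, hun, hwn]
    nlinarith
  have huv : inner ℝ u v = 1 / 2 := by
    simp only [hv, inner_add_right, inner_smul_right, hu, huw, hun]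
    norm_num
  have hwv : inner ℝ w v = 1 / 2 := by
    simp only [hv, inner_add_right, inner_smul_right, hw, hwu, hwn]
    norm_num
  have e3 : inner ℝ d v = 0 := by
    rw [hd, inner_sub_left]
    linarith [ha.2 v hvv huv, hb.2 v hvv hwv]
  rw [hv, inner_add_right, inner_add_right, inner_smul_right, inner_smul_right, inner_smul_right,
    e1, e2, hdn'] at e3
  have : √6 ≠ 0 := by positivity
  have h9 : √6 / 3 * ‖d‖ = 0 := by linarith
  rcases mul_eq_zero.1 h9 with h | h
  · exact this (by linarith)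
  · exact hdn h

lemma Hyp.cen_orth (H : Hyp h r R) {u m a b : E} (hu : inner ℝ u u = 1) (hm : inner ℝ m m = 1)
    (hum : inner ℝ u m = 0) (ha : Cen h r u a) (hb : Cen h r m b) : a = b := by
  have hmu : inner ℝ m u = 0 := by rw [real_inner_comm]; exact hum
  obtain ⟨n, hn, hun, hmn⟩ := exists_orth u m
  have hnu : inner ℝ n u = 0 := by rw [real_inner_comm]; exact hun
  have hnm : inner ℝ n m = 0 := by rw [real_inner_comm]; exact hmn
  have h2 : √2 * √2 = 2 := Real.mul_self_sqrt (by norm_num)
  set w : E := (1 / 2 : ℝ) • u + (1 / 2 : ℝ) • m + (√2 / 2) • n with hw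
  have hww : inner ℝ w w = 1 := by
    simp only [hw, inner_add_left, inner_add_right, inner_smul_left, inner_smul_right,
      RCLike.conj_to_real, hu, hm, hum, hmu, hn, hnu, hnm, hun, hmn]
    nlinarith
  have huw : inner ℝ u w = 1 / 2 := by
    simp only [hw, inner_add_right, inner_smul_right, hu, hum, hun]
    norm_num
  have hmw : inner ℝ m w = 1 / 2 := by
    simp only [hw, inner_add_right, inner_smul_right, hm, hmu, hmn]
    norm_num
  obtain ⟨c, hc⟩ := H.exists_cen hww
  rw [cen_eq hu hww huw ha hc, cen_eq hm hww hmw hb hc]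

/-- **The support function is that of a ball.** -/
theorem Hyp.main (H : Hyp h r R) : ∃ a : E, ∀ u : E, inner ℝ u u = 1 → h u = inner ℝ a u + r := by
  obtain ⟨e, he, _, _⟩ := exists_orth 0 0
  obtain ⟨a, ha⟩ := H.exists_cen he
  refine ⟨a, fun u hu => ?_⟩
  obtain ⟨m, hm, hem, hum⟩ := exists_orth e u
  obtain ⟨b, hb⟩ := H.exists_cen hm
  obtain ⟨c, hc⟩ := H.exists_cen hu
  rw [H.cen_orth he hm hem ha hb, ← H.cen_orth hu hm hum hc hb]
  exact hc.1


/-- Extend two unit vectors at angle `2π/3` to an orthonormal basis adapted to them. -/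
lemma exists_basis {u v : E} (hu : inner ℝ u u = 1) (hv : inner ℝ v v = 1)
    (huv : inner ℝ u v = -1 / 2) : ∃ b : OrthonormalBasis (Fin 3) ℝ E, b 0 = u ∧
      v = (-1 / 2 : ℝ) • b 0 + (√3 / 2) • b 1 := by
  have hs : √3 * √3 = 3 := Real.mul_self_sqrt (by norm_num)
  have hs0 : √3 ≠ 0 := by positivity
  have hvu : inner ℝ v u = -1 / 2 := by rw [real_inner_comm]; exact huv
  set p : E := (2 / √3) • v + (1 / √3) • u with hp
  have hpp : inner ℝ p p = 1 := by
    simp only [hp, inner_add_left, inner_add_right, inner_smul_left, inner_smul_right,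
      RCLike.conj_to_real, hu, hv, huv, hvu]
    field_simp
    nlinarith
  have hup : inner ℝ u p = 0 := by
    simp only [hp, inner_add_right, inner_smul_right, hu, huv]
    ring
  have hpu : inner ℝ p u = 0 := by rw [real_inner_comm]; exact hup
  obtain ⟨q, hq, huq, hpq⟩ := exists_orth u p
  have hqu : inner ℝ q u = 0 := by rw [real_inner_comm]; exact huq
  have hqp : inner ℝ q p = 0 := by rw [real_inner_comm]; exact hpq
  have hvp : v = (-1 / 2 : ℝ) • u + (√3 / 2) • p := by
    rw [hp, smul_add, smul_smul, smul_smul]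
    have e1 : √3 / 2 * (2 / √3) = 1 := by field_simp
    have e2 : √3 / 2 * (1 / √3) = 1 / 2 := by field_simp
    rw [e1, e2]
    module
  have hon : Orthonormal ℝ ![u, p, q] := by
    rw [orthonormal_iff_ite]
    intro i j
    fin_cases i <;> fin_cases j <;>
      simp [norm_one_iff.2 hu, norm_one_iff.2 hpp, norm_one_iff.2 hq, hup, huq, hpq, hpu, hqu, hqp]
  have hspan : ⊤ ≤ Submodule.span ℝ (Set.range ![u, p, q]) :=
    (hon.linearIndependent.span_eq_top_of_card_eq_finrank' (by simp)).ge
  refine ⟨OrthonormalBasis.mk hon hspan, ?_, ?_⟩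
  · simp
  · simpa using hvp

/-- Rotations act transitively on the pairs of unit vectors at angle `2π/3`. -/
lemma exists_rotation {u v u' v' : E} (hu : inner ℝ u u = 1) (hv : inner ℝ v v = 1)
    (huv : inner ℝ u v = -1 / 2) (hu' : inner ℝ u' u' = 1) (hv' : inner ℝ v' v' = 1)
    (huv' : inner ℝ u' v' = -1 / 2) : ∃ ρ : E ≃ₗᵢ[ℝ] E,
      LinearMap.det (ρ.toLinearEquiv : E →ₗ[ℝ] E) = 1 ∧ ρ u = u' ∧ ρ v = v' := by
  obtain ⟨b, hb0, hbv⟩ := exists_basis hu hv huv
  obtain ⟨b', hb0', hbv'⟩ := exists_basis hu' hv' huv'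
  set ρ₀ : E ≃ₗᵢ[ℝ] E := b.repr.trans b'.repr.symm with hρ₀
  have hρb : ∀ i, ρ₀ (b i) = b' i := by
    intro i
    simp [hρ₀]
  have h1 : ρ₀ u = u' := by rw [← hb0, hρb, hb0']
  have h2 : ρ₀ v = v' := by rw [hbv, map_add, map_smul, map_smul, hρb, hρb, ← hbv']
  have hdet : |LinearMap.det (ρ₀.toLinearEquiv : E →ₗ[ℝ] E)| = 1 := by
    rw [← LinearMap.normDet_eq_abs_det]
    exact LinearIsometry.normDet_eq_one ρ₀.toLinearIsometry
  rcases (abs_eq zero_le_one).1 hdet with hd | hd
  · exact ⟨ρ₀, hd, h1, h2⟩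
  · set K : Submodule ℝ E := (ℝ ∙ b' 2)ᗮ with hK
    have hKd : LinearMap.det (K.reflection.toLinearEquiv : E →ₗ[ℝ] E) = -1 := by
      have h3 := K.det_reflection
      have h4 : Module.finrank ℝ Kᗮ = 1 := by
        rw [hK, Submodule.orthogonal_orthogonal]
        refine finrank_span_singleton ?_
        intro h
        have := b'.orthonormal.1 2
        rw [h, norm_zero] at this
        exact zero_ne_one this
      rw [h4, pow_one] at h3
      exact h3
    have hmem : ∀ i, i ≠ 2 → b' i ∈ K := by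
      intro i hi
      rw [hK, Submodule.mem_orthogonal_singleton_iff_inner_right]
      exact b'.orthonormal.2 hi.symm
    have hfix : ∀ i, i ≠ 2 → K.reflection (b' i) = b' i := fun i hi =>
      Submodule.reflection_mem_subspace_eq_self (hmem i hi)
    refine ⟨ρ₀.trans K.reflection, ?_, ?_, ?_⟩
    · have : ((ρ₀.trans K.reflection).toLinearEquiv : E →ₗ[ℝ] E) =
          (K.reflection.toLinearEquiv : E →ₗ[ℝ] E) ∘ₗ (ρ₀.toLinearEquiv : E →ₗ[ℝ] E) := rfl
      rw [this, LinearMap.det_comp, hKd, hd]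
      norm_num
    · rw [LinearIsometryEquiv.trans_apply, h1, ← hb0', hfix 0 (by decide)]
    · rw [LinearIsometryEquiv.trans_apply, h2, hbv', map_add, map_smul, map_smul,
        hfix 0 (by decide), hfix 1 (by decide)]

/-- The vertical unit vector. -/
noncomputable def e3 : E := EuclideanSpace.single 2 1

/-- For a subset `S` of the plane `z = 0`, the set `S × ℝ`. -/
def cylinder (S : Set E) : Set E := {x | ∃ y ∈ S, ∃ t : ℝ, x = y + t • e3}

/-- `A`, `B`, `C` are the vertices of an equilateral triangle in the plane `z = 0`. -/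
structure IsEquilateral (A B C : E) : Prop where
  planeA : A 2 = 0
  planeB : B 2 = 0
  planeC : C 2 = 0
  ne : A ≠ B
  bc : dist B C = dist A B
  ca : dist C A = dist A B

/-- The infinite prism over the triangle `A B C`. -/
def prism (A B C : E) : Set E := cylinder (convexHull ℝ {A, B, C})

/-- The face over the edge `A B`. -/
def face (A B : E) : Set E := cylinder (segment ℝ A B)

/-- `L` lies in the prism and meets each of its three faces. -/
def Fits (A B C : E) (L : Set E) : Prop :=
  L ⊆ prism A B C ∧ (L ∩ face A B).Nonempty ∧ (L ∩ face B C).Nonempty ∧ (L ∩ face C A).Nonempty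

/-- A linear isometry is a rotation if its determinant is `1`. -/
def IsRotation (ρ : E ≃ₗᵢ[ℝ] E) : Prop := LinearMap.det (ρ.toLinearEquiv : E →ₗ[ℝ] E) = 1

/-- The set `ρ K + t`. -/
def move (ρ : E ≃ₗᵢ[ℝ] E) (t : E) (K : Set E) : Set E := (fun x => ρ x + t) '' K

/-- `K` is a rotor in the infinite prism over the triangle `A B C`: for every rotation `ρ` there is
a vector `t` such that `ρ K + t` lies in the prism and meets each of its three faces. -/
def IsRotor (A B C : E) (K : Set E) : Prop :=
  ∀ ρ : E ≃ₗᵢ[ℝ] E, IsRotation ρ → ∃ t : E, Fits A B C (move ρ t K)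

/-- The data of the triangle: centroid `g`, inradius `r`, outer unit normals `a`, `b`, `c` of the
edges opposite to the vertices `A`, `B`, `C`. -/
structure Tri (A B C g a b c : E) (r : ℝ) : Prop where
  r_pos : 0 < r
  A_eq : A = g - (2 * r) • a
  B_eq : B = g - (2 * r) • b
  C_eq : C = g - (2 * r) • c
  sum : a + b + c = 0
  aa : inner ℝ a a = 1
  bb : inner ℝ b b = 1
  cc : inner ℝ c c = 1
  a2 : a 2 = 0
  b2 : b 2 = 0
  c2 : c 2 = 0
  g2 : g 2 = 0

lemma exists_tri {A B C : E} (h : IsEquilateral A B C) :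
    ∃ g a b c : E, Tri A B C g a b c (dist A B / (2 * √3)) := by
  set s := dist A B with hs
  have hs0 : 0 < s := dist_pos.2 h.ne
  have h3 : √3 * √3 = 3 := Real.mul_self_sqrt (by norm_num)
  have h3' : 0 < √3 := by positivity
  set r := s / (2 * √3) with hr
  have hr0 : 0 < r := by positivity
  have hrs : s ^ 2 = 12 * r ^ 2 := by
    rw [hr]
    field_simp
    nlinarith
  set g : E := (1 / 3 : ℝ) • (A + B + C) with hg
  -- squared distances
  have e1 : inner ℝ (A - B) (A - B) = s ^ 2 := by rw [real_inner_self_eq_norm_sq, ← dist_eq_norm]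
  have e2 : inner ℝ (B - C) (B - C) = s ^ 2 := by
    rw [real_inner_self_eq_norm_sq, ← dist_eq_norm, h.bc]
  have e3 : inner ℝ (C - A) (C - A) = s ^ 2 := by
    rw [real_inner_self_eq_norm_sq, ← dist_eq_norm, h.ca]
  simp only [inner_sub_left, inner_sub_right, real_inner_comm A B, real_inner_comm B C,
    real_inner_comm A C] at e1 e2 e3
  have hcomm : inner ℝ A B = inner ℝ B A := real_inner_comm _ _
  have hcomm2 : inner ℝ B C = inner ℝ C B := real_inner_comm _ _
  have hcomm3 : inner ℝ A C = inner ℝ C A := real_inner_comm _ _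
  refine ⟨g, (2 * r)⁻¹ • (g - A), (2 * r)⁻¹ • (g - B), (2 * r)⁻¹ • (g - C), hr0, ?_, ?_, ?_, ?_,
    ?_, ?_, ?_, ?_, ?_, ?_, ?_⟩
  · rw [smul_smul, mul_inv_cancel₀ (by positivity), one_smul]; abel
  · rw [smul_smul, mul_inv_cancel₀ (by positivity), one_smul]; abel
  · rw [smul_smul, mul_inv_cancel₀ (by positivity), one_smul]; abel
  · rw [← smul_add, ← smul_add]
    have : g - A + (g - B) + (g - C) = 0 := by rw [hg]; module
    rw [this, smul_zero]
  · rw [inner_smul_left, inner_smul_right, hg]
    simp only [inner_sub_left, inner_sub_right, inner_smul_left, inner_smul_right, inner_add_left,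
      inner_add_right, RCLike.conj_to_real]
    field_simp
    nlinarith
  · rw [inner_smul_left, inner_smul_right, hg]
    simp only [inner_sub_left, inner_sub_right, inner_smul_left, inner_smul_right, inner_add_left,
      inner_add_right, RCLike.conj_to_real]
    field_simp
    nlinarith
  · rw [inner_smul_left, inner_smul_right, hg]
    simp only [inner_sub_left, inner_sub_right, inner_smul_left, inner_smul_right, inner_add_left,
      inner_add_right, RCLike.conj_to_real]
    field_simp
    nlinarith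
  · simp [hg, h.planeA, h.planeB, h.planeC]
  · simp [hg, h.planeA, h.planeB, h.planeC]
  · simp [hg, h.planeA, h.planeB, h.planeC]
  · simp [hg, h.planeA, h.planeB, h.planeC]


lemma inner_e3 {a : E} (ha : a 2 = 0) : inner ℝ e3 a = 0 := by
  rw [e3, EuclideanSpace.inner_single_left, ha, mul_zero]

lemma Tri.inner_ab {A B C g a b c : E} {r : ℝ} (T : Tri A B C g a b c r) :
    inner ℝ a b = -1 / 2 := by
  have h1 : inner ℝ c c = inner ℝ (-(a + b)) (-(a + b)) := by
    rw [show c = -(a + b) from eq_neg_of_add_eq_zero_right T.sum]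
  rw [inner_neg_neg, inner_add_left, inner_add_right, inner_add_right, T.aa, T.bb, T.cc,
    real_inner_comm a b] at h1
  linarith

lemma Tri.rotate {A B C g a b c : E} {r : ℝ} (T : Tri A B C g a b c r) :
    Tri B C A g b c a r :=
  ⟨T.r_pos, T.B_eq, T.C_eq, T.A_eq, by rw [← T.sum]; abel, T.bb, T.cc, T.aa, T.b2, T.c2, T.a2,
    T.g2⟩

/-- The face over the edge `B C` lies in the plane `⟪x - g, a⟫ = r`. -/
lemma Tri.face {A B C g a b c : E} {r : ℝ} (T : Tri A B C g a b c r) {x : E}
    (hx : x ∈ cylinder (segment ℝ B C)) : inner ℝ (x - g) a = r := by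
  obtain ⟨y, ⟨β, γ, _, _, hβγ, rfl⟩, t, rfl⟩ := hx
  have h1 : inner ℝ b a = -1 / 2 := by rw [real_inner_comm]; exact T.inner_ab
  have h2 : inner ℝ c a = -1 / 2 := T.rotate.rotate.inner_ab
  have h3 : β • B + γ • C + t • e3 - g = (-(2 * r) * β) • b + (-(2 * r) * γ) • c + t • e3 := by
    rw [T.B_eq, T.C_eq]
    have : g = (β + γ) • g := by rw [hβγ, one_smul]
    nth_rewrite 3 [this]
    module
  rw [h3, inner_add_left, inner_add_left, inner_smul_left, inner_smul_left, inner_smul_left, h1, h2,
    inner_e3 T.a2]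
  simp only [RCLike.conj_to_real]
  linear_combination r * hβγ

/-- The prism lies in the half space `⟪x - g, a⟫ ≤ r`. -/
lemma Tri.side {A B C g a b c : E} {r : ℝ} (T : Tri A B C g a b c r) {x : E}
    (hx : x ∈ cylinder (convexHull ℝ {A, B, C})) : inner ℝ (x - g) a ≤ r := by
  obtain ⟨y, hy, t, rfl⟩ := hx
  have h1 : inner ℝ b a = -1 / 2 := by rw [real_inner_comm]; exact T.inner_ab
  have h2 : inner ℝ c a = -1 / 2 := T.rotate.rotate.inner_ab
  have h3 : convexHull ℝ {A, B, C} ⊆ {y : E | inner ℝ (y - g) a ≤ r} := by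
    refine convexHull_min ?_ ?_
    · rintro y (rfl | rfl | rfl)
      · rw [mem_ofPred_eq, T.A_eq, sub_sub_cancel_left, inner_neg_left, inner_smul_left, T.aa]
        simp only [RCLike.conj_to_real]
        linarith [T.r_pos]
      · rw [mem_ofPred_eq, T.B_eq, sub_sub_cancel_left, inner_neg_left, inner_smul_left, h1]
        simp only [RCLike.conj_to_real]
        linarith
      · rw [mem_ofPred_eq, T.C_eq, sub_sub_cancel_left, inner_neg_left, inner_smul_left, h2]
        simp only [RCLike.conj_to_real]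
        linarith
    · intro y hy z hz α β hα hβ hαβ
      rw [mem_ofPred_eq] at hy hz ⊢
      have : α • y + β • z - g = α • (y - g) + β • (z - g) := by
        have : g = (α + β) • g := by rw [hαβ, one_smul]
        nth_rewrite 1 [this]
        module
      rw [this, inner_add_left, inner_smul_left, inner_smul_left]
      simp only [RCLike.conj_to_real]
      have h4 := mul_le_mul_of_nonneg_left hy hα
      have h5 := mul_le_mul_of_nonneg_left hz hβ
      have h6 : α * r + β * r = r := by rw [← add_mul, hαβ, one_mul]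
      linarith
  have h4 := h3 hy
  rw [mem_ofPred_eq] at h4
  have h5 : y + t • e3 - g = (y - g) + t • e3 := by abel
  rw [h5, inner_add_left, inner_smul_left, inner_e3 T.a2, mul_zero, add_zero]
  exact h4

/-- The tight frame identity. -/
lemma Tri.frame {A B C g a b c : E} {r : ℝ} (T : Tri A B C g a b c r) {z : E} (hz : z 2 = 0) :
    (inner ℝ z a : ℝ) • a + (inner ℝ z b : ℝ) • b + (inner ℝ z c : ℝ) • c = (3 / 2 : ℝ) • z := by
  have hc : c = -(a + b) := eq_neg_of_add_eq_zero_right T.sum
  have h1 := T.aa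
  have h2 := T.inner_ab
  rw [hc]
  simp only [PiLp.inner_apply, Fin.sum_univ_three, T.a2, T.b2, PiLp.neg_apply, PiLp.add_apply,
    RCLike.inner_apply, conj_trivial, hz, mul_zero, add_zero] at h1 h2 ⊢
  set a0 := a 0
  set a1 := a 1
  set b0 := b 0
  set b1 := b 1
  set D := a0 * b1 - a1 * b0 with hD
  have hb0 : b0 = -a0 / 2 - D * a1 := by
    rw [hD]; linear_combination (-b0) * h1 + a0 * h2
  have hb1 : b1 = -a1 / 2 + D * a0 := by
    rw [hD]; linear_combination (-b1) * h1 + a1 * h2
  have h3 := T.bb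
  simp only [PiLp.inner_apply, Fin.sum_univ_three, T.b2, RCLike.inner_apply, conj_trivial, mul_zero,
    add_zero] at h3
  have h3' : b0 * b0 + b1 * b1 = 1 := h3
  have hDD : D * D = 3 / 4 := by
    have : b0 * b0 + b1 * b1 = (a0 * a0 + a1 * a1) * (1 / 4 + D * D) := by
      rw [hb0, hb1]; ring
    rw [h3', h1] at this
    linarith
  ext i
  fin_cases i
  · simp only [PiLp.add_apply, PiLp.smul_apply, PiLp.neg_apply, smul_eq_mul, Fin.zero_eta]
    change _ * a0 + _ * b0 + _ * -(a0 + b0) = _ * z 0
    rw [hb0, hb1]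
    linear_combination (3 / 2 * z 0) * h1 + (2 * z 0 * a1 ^ 2 - 2 * z 1 * a0 * a1) * hDD
  · simp only [PiLp.add_apply, PiLp.smul_apply, PiLp.neg_apply, smul_eq_mul, Fin.mk_one]
    change _ * a1 + _ * b1 + _ * -(a1 + b1) = _ * z 1
    rw [hb0, hb1]
    linear_combination (3 / 2 * z 1) * h1 + (2 * z 1 * a0 ^ 2 - 2 * z 0 * a0 * a1) * hDD
  · simp [T.a2, T.b2, hz]

/-- The inscribed ball lies in the prism. -/
lemma Tri.ball {A B C g a b c : E} {r : ℝ} (T : Tri A B C g a b c r) :
    closedBall g r ⊆ cylinder (convexHull ℝ {A, B, C}) := by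
  intro x hx
  rw [mem_closedBall, dist_eq_norm] at hx
  set z : E := x - g - (x 2) • e3 with hz
  have hz2 : z 2 = 0 := by simp [hz, e3, T.g2]
  have hle : ∀ n : E, inner ℝ n n = 1 → n 2 = 0 → inner ℝ z n ≤ r := by
    intro n hn hn2
    rw [hz, inner_sub_left, inner_smul_left, inner_e3 hn2, mul_zero, sub_zero]
    refine (real_inner_le_norm _ _).trans ?_
    rw [norm_one_iff.2 hn, mul_one]
    exact hx
  have hr := T.r_pos
  refine ⟨g + z, ?_, x 2, by rw [hz]; abel⟩
  have hsum : inner ℝ z a + inner ℝ z b + inner ℝ z c = 0 := by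
    rw [← inner_add_right, ← inner_add_right, T.sum, inner_zero_right]
  have h1 := (convex_convexHull ℝ {A, B, C}).sum_mem (t := Finset.univ)
    (w := ![(r - inner ℝ z a) / (3 * r), (r - inner ℝ z b) / (3 * r), (r - inner ℝ z c) / (3 * r)])
    (z := ![A, B, C]) ?_ ?_ ?_
  · convert h1 using 1
    simp only [Fin.sum_univ_three, Matrix.cons_val_zero, Matrix.cons_val_one, Matrix.cons_val]
    have hf := T.frame hz2
    have e1 : ((r - inner ℝ z a) / (3 * r)) • A + ((r - inner ℝ z b) / (3 * r)) • B +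
        ((r - inner ℝ z c) / (3 * r)) • C =
        ((3 * r - (inner ℝ z a + inner ℝ z b + inner ℝ z c)) / (3 * r)) • g -
          (2 / 3 * r) • (a + b + c) +
          (2 / 3 : ℝ) • ((inner ℝ z a : ℝ) • a + (inner ℝ z b : ℝ) • b + (inner ℝ z c : ℝ) • c) := by
      rw [T.A_eq, T.B_eq, T.C_eq]
      match_scalars <;> field_simp <;> ring
    rw [e1, hf, T.sum, hsum, smul_zero, sub_zero, sub_zero, div_self (by positivity), one_smul,
      smul_smul]
    norm_num
  · intro i _
    fin_cases i
    · exact div_nonneg (sub_nonneg.2 (hle a T.aa T.a2)) (by positivity)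
    · exact div_nonneg (sub_nonneg.2 (hle b T.bb T.b2)) (by positivity)
    · exact div_nonneg (sub_nonneg.2 (hle c T.cc T.c2)) (by positivity)
  · simp only [Fin.sum_univ_three, Matrix.cons_val_zero, Matrix.cons_val_one, Matrix.cons_val]
    field_simp
    linarith
  · intro i _
    fin_cases i
    · exact subset_convexHull _ _ (by simp)
    · exact subset_convexHull _ _ (by simp)
    · exact subset_convexHull _ _ (by simp)


/-- A closed convex set whose support function is that of a ball is the ball. -/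
lemma eq_ball {K : Set E} (hK : IsCompact K) (hc : Convex ℝ K) (hne : K.Nonempty) {a : E} {r : ℝ}
    (hr : 0 ≤ r)
    (h : ∀ u : E, inner ℝ u u = 1 → (∀ x ∈ K, inner ℝ x u ≤ inner ℝ a u + r) ∧
      ∃ x ∈ K, inner ℝ x u = inner ℝ a u + r) : K = closedBall a r := by
  have hunit : ∀ y : E, y ≠ 0 → inner ℝ (‖y‖⁻¹ • y) (‖y‖⁻¹ • y) = 1 := by
    intro y hy
    have : ‖y‖ ≠ 0 := norm_ne_zero_iff.2 hy
    rw [inner_smul_left, inner_smul_right, real_inner_self_eq_norm_sq, RCLike.conj_to_real]
    field_simp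
  apply Subset.antisymm
  · intro x hx
    rw [mem_closedBall, dist_eq_norm]
    rcases eq_or_ne (x - a) 0 with h0 | h0
    · rw [h0, norm_zero]; exact hr
    · have h1 := (h _ (hunit _ h0)).1 x hx
      have hn : ‖x - a‖ ≠ 0 := norm_ne_zero_iff.2 h0
      have h2 : inner ℝ (x - a) (‖x - a‖⁻¹ • (x - a)) = ‖x - a‖ := by
        rw [inner_smul_right, real_inner_self_eq_norm_sq]
        field_simp
      rw [inner_sub_left] at h2
      linarith
  · intro x hx
    by_contra hxK
    obtain ⟨f, s, hs1, hs2⟩ := geometric_hahn_banach_closed_point hc hK.isClosed hxK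
    set y : E := (InnerProductSpace.toDual ℝ E).symm f with hy
    have hf : ∀ z, f z = inner ℝ y z := fun z => by
      rw [hy, InnerProductSpace.toDual_symm_apply]
    have hy0 : y ≠ 0 := by
      intro h0
      obtain ⟨k, hk⟩ := hne
      have h1 := hs1 k hk
      rw [hf, h0, inner_zero_left] at h1
      rw [hf, h0, inner_zero_left] at hs2
      linarith
    have hn : 0 < ‖y‖ := norm_pos_iff.2 hy0
    obtain ⟨k, hk, hk'⟩ := (h _ (hunit _ hy0)).2
    have h1 := hs1 k hk
    rw [hf] at h1 hs2
    have h2 : inner ℝ (x - a) (‖y‖⁻¹ • y) ≤ r := by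
      refine (real_inner_le_norm _ _).trans ?_
      rw [norm_one_iff.2 (hunit _ hy0), mul_one, ← dist_eq_norm]
      exact hx
    rw [inner_sub_left] at h2
    have h3 : inner ℝ x (‖y‖⁻¹ • y) ≤ inner ℝ k (‖y‖⁻¹ • y) := by linarith
    rw [inner_smul_right, inner_smul_right] at h3
    have h4 := le_of_mul_le_mul_left h3 (inv_pos.2 hn)
    rw [real_inner_comm] at h1 hs2
    linarith

/-- **Rotors of the regular triangular prism are balls.** Let `A`, `B`, `C` be the vertices of an
equilateral triangle in the plane `z = 0`. A convex body `K` is a rotor in the infinite prism over the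
triangle if and only if it is a closed ball whose radius is the inradius of the triangle. -/
theorem result (A B C : E) (hABC : IsEquilateral A B C) (K : Set E) (hK : IsCompact K)
    (hc : Convex ℝ K) (hi : (interior K).Nonempty) :
    IsRotor A B C K ↔ ∃ p : E, K = closedBall p (dist A B / (2 * √3)) := by
  obtain ⟨g, a, b, c, T⟩ := exists_tri hABC
  set r := dist A B / (2 * √3) with hr
  have hne : K.Nonempty := hi.mono interior_subset
  constructor
  · intro hrot
    -- the support function
    have hmax : ∀ u : E, ∃ x ∈ K, ∀ y ∈ K, inner ℝ y u ≤ inner ℝ x u := by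
      intro u
      obtain ⟨x, hx, hx'⟩ := hK.exists_isMaxOn hne
        (f := fun y : E => (inner ℝ y u : ℝ)) (by fun_prop)
      exact ⟨x, hx, fun y hy => hx' hy⟩
    choose X hXK hX using hmax
    obtain ⟨R, hR⟩ := hK.isBounded.exists_norm_le
    have H : Hyp (fun u => inner ℝ (X u) u) r R := by
      refine ⟨fun u => ⟨X u, rfl, fun w => hX w _ (hXK u)⟩, ?_, ?_⟩
      · intro x hx
        have h1 := hx x
        have h2 : inner ℝ (X x) x ≤ R * ‖x‖ :=
          (real_inner_le_norm _ _).trans (mul_le_mul_of_nonneg_right (hR _ (hXK x)) (norm_nonneg _))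
        have h3 : ‖x‖ * ‖x‖ ≤ R * ‖x‖ := by
          rw [← real_inner_self_eq_norm_mul_norm]
          exact h1.trans h2
        rcases eq_or_ne ‖x‖ 0 with h0 | h0
        · rw [h0]
          obtain ⟨k, hk⟩ := hne
          exact (norm_nonneg k).trans (hR k hk)
        · exact le_of_mul_le_mul_right h3 (lt_of_le_of_ne (norm_nonneg _) (Ne.symm h0))
      · intro u v w hu hv hw huvw
        have hw' : w = -(u + v) := eq_neg_of_add_eq_zero_right huvw
        have huv : inner ℝ u v = -1 / 2 := by
          rw [hw', inner_neg_neg, inner_add_left, inner_add_right, inner_add_right, hu, hv,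
            real_inner_comm u v] at hw
          linarith
        obtain ⟨ρ, hρ, hρu, hρv⟩ := exists_rotation hu hv huv T.aa T.bb T.inner_ab
        have hρw : ρ w = c := by
          rw [hw', map_neg, map_add, hρu, hρv, ← eq_neg_of_add_eq_zero_right T.sum]
        obtain ⟨t, ht, htAB, htBC, htCA⟩ := hrot ρ hρ
        have hval : ∀ (n m : E), ρ m = n →
            (∀ x ∈ K, inner ℝ (ρ x + t - g) n ≤ r) → (∃ x ∈ K, inner ℝ (ρ x + t - g) n = r) →
            inner ℝ (X m) m = r + inner ℝ (g - t) n := by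
          intro n m hnm h1 h2
          have h3 : ∀ x, inner ℝ (ρ x + t - g) n = inner ℝ x m - inner ℝ (g - t) n := by
            intro x
            rw [← hnm, show ρ x + t - g = ρ x - (g - t) by abel, inner_sub_left,
              LinearIsometryEquiv.inner_map_map]
          obtain ⟨x, hx, hxe⟩ := h2
          have h4 := h1 _ (hXK m)
          have h5 := hX m x hx
          rw [h3] at h4 hxe
          linarith
        have e1 := hval a u hρu (fun x hx => T.side (ht ⟨x, hx, rfl⟩)) (by
          obtain ⟨_, ⟨x, hx, rfl⟩, hy⟩ := htBC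
          exact ⟨x, hx, T.face hy⟩)
        have hs1 : ({B, C, A} : Set E) = {A, B, C} := by
          ext; simp only [mem_insert_iff, mem_singleton_iff]; tauto
        have hs2 : ({C, A, B} : Set E) = {A, B, C} := by
          ext; simp only [mem_insert_iff, mem_singleton_iff]; tauto
        have e2 := hval b v hρv (fun x hx => T.rotate.side (by rw [hs1]; exact ht ⟨x, hx, rfl⟩)) (by
          obtain ⟨_, ⟨x, hx, rfl⟩, hy⟩ := htCA
          exact ⟨x, hx, T.rotate.face hy⟩)
        have e3 := hval c w hρw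
          (fun x hx => T.rotate.rotate.side (by rw [hs2]; exact ht ⟨x, hx, rfl⟩)) (by
          obtain ⟨_, ⟨x, hx, rfl⟩, hy⟩ := htAB
          exact ⟨x, hx, T.rotate.rotate.face hy⟩)
        have e4 : inner ℝ (g - t) a + inner ℝ (g - t) b + inner ℝ (g - t) c = 0 := by
          rw [← inner_add_right, ← inner_add_right, T.sum, inner_zero_right]
        simp only [e1, e2, e3]
        linarith
    obtain ⟨p, hp⟩ := H.main
    refine ⟨p, eq_ball hK hc hne T.r_pos.le fun u hu => ⟨fun x hx => ?_, X u, hXK u, hp u hu⟩⟩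
    rw [← hp u hu]
    exact hX u x hx
  · rintro ⟨p, rfl⟩ ρ _
    have himg : move ρ (g - ρ p) (closedBall p r) = closedBall g r := by
      ext y
      constructor
      · rintro ⟨x, hx, rfl⟩
        rw [mem_closedBall, dist_eq_norm] at hx ⊢
        have : ρ x + (g - ρ p) - g = ρ (x - p) := by rw [map_sub]; abel
        rw [this, ρ.norm_map]
        exact hx
      · intro hy
        rw [mem_closedBall, dist_eq_norm] at hy
        refine ⟨p + ρ.symm (y - g), ?_, ?_⟩
        · rw [mem_closedBall, dist_eq_norm, add_sub_cancel_left, LinearIsometryEquiv.norm_map]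
          exact hy
        · simp only [map_add, LinearIsometryEquiv.apply_symm_apply]
          abel
    have hmid : ∀ {A B C g a b c : E} {r : ℝ}, Tri A B C g a b c r →
        (closedBall g r ∩ cylinder (segment ℝ B C)).Nonempty := by
      intro A B C g a b c r T
      refine ⟨g + r • a, ?_, g + r • a, ⟨1 / 2, 1 / 2, by norm_num, by norm_num, by norm_num, ?_⟩, 0,
        by simp⟩
      · rw [mem_closedBall, dist_eq_norm, add_sub_cancel_left, norm_smul, norm_one_iff.2 T.aa,
          mul_one, Real.norm_eq_abs, abs_of_pos T.r_pos]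
      · have ha : a = -(b + c) := by
          rw [eq_neg_iff_add_eq_zero, ← add_assoc]
          exact T.sum
        rw [T.B_eq, T.C_eq, ha]
        module
    refine ⟨g - ρ p, ?_, ?_, ?_, ?_⟩
    · rw [himg]; exact T.ball
    · rw [himg]; exact hmid T.rotate.rotate
    · rw [himg]; exact hmid T
    · rw [himg]; exact hmid T.rotate

end Pool.Agent.Results.MP_c2e62a_gt.RotorsAreBalls
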